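import Pool.Agent.H46.HC.Neg
import Pool.Agent.H46.HC.Fth
import Pool.Agent.H92.CN.Pos
import Pool.Agent.H92.CN.Fi

/-!
# The existence of monotone `G_δ` hull operations is independent of ZFC

There is a model of ZFC with a monotone `G_δ` hull operation on all Borel sets (so on all classes of
Borel sets), and there is a model of ZFC in which no class which contains the `F_σ` sets has a monotone
`G_δ` hull operation. The last part of the theorem says that the first-order sentences used here, read
in the real world (the structure `(ZFSet, ∈)`), are equivalent to the statements of the problem on the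
Borel and on the `F_σ` subsets of `[0,1]`.

The first model is obtained by forcing with the countable partial monotone hull operations, the second
one by adding more than `2 ^ ℵ₀` Cohen reals; both are Boolean-valued models divided by an ultrafilter.
The ground model is arbitrary.
-/

set_option autoImplicit false

namespace Pool.Agent.Results.MP_eb0437_lc.Independence

open BV PK HC Pool.H46Hull

/-- The existence of a monotone `G_δ` hull operation on the Borel sets, on the `F_σ` sets and on every
class in between is independent of ZFC. -/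
theorem result :
    (∃ (M : Type 1) (E : M → M → Prop), IsZFC E ∧ ∃ w, IsOmega E w ∧
      ∀ D : M → Prop, (∀ A, D A → IsBorel E w A) → ∃ f, IsHullOp E w D f) ∧
    (∃ (M : Type 1) (E : M → M → Prop), IsZFC E ∧ ∃ w, IsOmega E w ∧
      ∀ D : M → Prop, (∀ A, IsFsigma E w A → D A) → ¬ ∃ f, IsHullOp E w D f) ∧
    ∀ w : ZFSet.{0}, IsOmega (fun x y => x ∈ y) w →
      ((∃ f, IsHullOp (fun x y => x ∈ y) w (IsBorel (fun x y => x ∈ y) w) f) ↔
        ∃ φ, IsMonotoneGdeltaHullOp BorelSets φ) ∧
      ((∃ f, IsHullOp (fun x y => x ∈ y) w (IsFsigma (fun x y => x ∈ y) w) f) ↔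
        ∃ φ, IsMonotoneGdeltaHullOp FsigmaSets φ) := by
  refine ⟨?_, exists_no_op, fun w hw => ⟨?_, ?_⟩⟩
  · obtain ⟨M, E, hZ, w, hw, f, hf1, hf2⟩ := CN.exists_model
    exact ⟨M, E, hZ, w, hw, fun D hD => ⟨f, fun A hA => hf1 A (hD A hA),
      fun A A' H H' hA hA' => hf2 A A' H H' (hD A hA) (hD A' hA')⟩⟩
  · exact (borelOp_V hw).trans CN.hullOp2_bor
  · exact (fsigmaOp_V hw).trans CN.hullOp2_fsg

end Pool.Agent.Results.MP_eb0437_lc.Independence
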